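import Pool.Agent.HamWt.Final

set_option autoImplicit false

namespace Pool.Agent.Results.MP_3a6b6d_co.CrossingsModFour

open Finset SimpleGraph Pool.Agent.HamWt

/-- If f is a Hamiltonian weight of a cubic graph with 2n vertices whose edges of weight one form
a Hamiltonian cycle C, then the number of crossing pairs of chords of C is n - 1 modulo 4. -/
theorem result (V : Type) [Fintype V] [DecidableEq V] (G : SimpleGraph V) [DecidableRel G.Adj]
    (hG : G.IsRegularOfDegree 3) (f : G.edgeSet → ℕ) (hf : HamiltonianWeight G f)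
    (u : V) (C : G.Walk u u) (hC : C.IsHamiltonianCycle)
    (hCf : ∀ e : G.edgeSet, f e = 1 ↔ (e : Sym2 V) ∈ C.edges) :
    #{e : Chords C × Chords C | Cross e.1 e.2} + 1 ≡ Fintype.card V / 2 [MOD 4] := by
  classical
  obtain ⟨hne, hcard, hconst⟩ := main_facts G hG f hf u C hC hCf
  have h1 := edge_count (crossSet C) (crossSet_anti C) hconst
  have h2 : #{e : Chords C × Chords C | Cross e.1 e.2} = #(crossSet C) := rfl
  rw [h2]
  unfold Nat.ModEq
  omega

end Pool.Agent.Results.MP_3a6b6d_co.CrossingsModFour
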