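import Pool.Agent.HamNet.Deg

set_option autoImplicit false

namespace Pool.Agent.Results.MP_3a6b6d_co.FlowForm

open SimpleGraph Pool.Agent.HamWt Pool.Agent.HamNet

/-- Let f be a Hamiltonian weight of the cubic graph G. There is a colouring of the vertices with
two colours in which the ends of every edge of weight one have different colours. Let χ be any
such colouring and let U be a set of edges of weight one such that the ends x, y of every edge of
weight two have the same degree in U, and different colours if this degree is one. Then no vertex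
has degree one in U. -/
theorem result (V : Type) [Fintype V] [DecidableEq V] (G : SimpleGraph V) [DecidableRel G.Adj]
    (hG : G.IsRegularOfDegree 3) (f : G.edgeSet → ℕ) (hf : HamiltonianWeight G f) :
    (∃ χ : V → Bool, ∀ x y (h : G.Adj x y), f ⟨s(x, y), h⟩ = 1 → χ x ≠ χ y) ∧
    ∀ χ : V → Bool, (∀ x y (h : G.Adj x y), f ⟨s(x, y), h⟩ = 1 → χ x ≠ χ y) →
      ∀ U : Set G.edgeSet, (∀ e ∈ U, f e = 1) →
        (∀ x y (h : G.Adj x y), f ⟨s(x, y), h⟩ = 2 →
          edgeDeg U x = edgeDeg U y ∧ (edgeDeg U x = 1 → χ x ≠ χ y)) →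
        ∀ x, edgeDeg U x ≠ 1 := by
  refine ⟨exists_chi G hG f hf, ?_⟩
  intro χ hχ U hU h2 x
  obtain ⟨N, rfl, hA, hN, hf1, hf2⟩ := exists_net G hG f hf χ hχ
  have : Nonempty V := ⟨x⟩
  exact flow_graph f N hA hN hf1 hf2 U hU h2 x

end Pool.Agent.Results.MP_3a6b6d_co.FlowForm
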