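import Pool.Agent.HamNet.Deg

set_option autoImplicit false

namespace Pool.Agent.Results.MP_3a6b6d_co.NearBipartite

open SimpleGraph Pool.Agent.HamWt Pool.Agent.HamNet

/-- Let G be a 3-connected cubic graph with a Hamiltonian weight f. If G becomes bipartite after
the deletion of two edges of weight two (or of one such edge), then G arises from the complete
graph on four vertices by repeatedly replacing a vertex by a triangle: it belongs to every class of
graphs which contains the complete graph on four vertices and is closed under this operation. -/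
theorem result (V : Type) [Fintype V] [DecidableEq V] (G : SimpleGraph V) [DecidableRel G.Adj]
    (hG : G.IsRegularOfDegree 3)
    (h3 : ∀ S : Finset V, S.card ≤ 2 → (G.induce ((S : Set V)ᶜ)).Connected)
    (f : G.edgeSet → ℕ) (hf : HamiltonianWeight G f)
    (e₁ e₂ : G.edgeSet) (h₁ : f e₁ = 2) (h₂ : f e₂ = 2)
    (hb : (G.deleteEdges {(e₁ : Sym2 V), (e₂ : Sym2 V)}).IsBipartite) :
    ∀ P : (n : ℕ) → SimpleGraph (Fin n) → Prop,
      P 4 ⊤ →
      (∀ (n : ℕ) (G₀ : SimpleGraph (Fin n)) (H : SimpleGraph (Fin (n + 2))),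
        P n G₀ →
        (∀ v, (H.neighborSet v).ncard = 3) →
        (∃ a b c : Fin (n + 2), H.Adj a b ∧ H.Adj b c ∧ H.Adj a c ∧
          ∃ φ : Fin (n + 2) → Fin n, Function.Surjective φ ∧ φ a = φ b ∧ φ b = φ c ∧
            (∀ x y, φ x = φ y → x = y ∨ φ x = φ a) ∧
            (∀ u v, G₀.Adj u v ↔ (u ≠ v ∧ ∃ x y, φ x = u ∧ φ y = v ∧ H.Adj x y))) →
        P (n + 2) H) →
      ∃ G' : SimpleGraph (Fin (Fintype.card V)), Nonempty (G ≃g G') ∧ P _ G' := by
  intro P h4 hstep
  exact near G hG h3 f hf e₁ e₂ h₁ h₂ hb (P := P) ⟨h4, hstep⟩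

end Pool.Agent.Results.MP_3a6b6d_co.NearBipartite
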