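import Pool.Agent.HamWt.Final

set_option autoImplicit false

namespace Pool.Agent.Results.MP_3a6b6d_co.StatePolynomial

open Finset SimpleGraph Pool.Agent.HamWt

/-- If f is a Hamiltonian weight of a cubic graph whose edges of weight one form a Hamiltonian
cycle C, then the signed nullity polynomial of the chord diagram of C is y - 1, as it is for the
chord diagrams whose interlace graph is a tree. -/
theorem result (V : Type) [Fintype V] [DecidableEq V] (G : SimpleGraph V) [DecidableRel G.Adj]
    (hG : G.IsRegularOfDegree 3) (f : G.edgeSet → ℕ) (hf : HamiltonianWeight G f)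
    (u : V) (C : G.Walk u u) (hC : C.IsHamiltonianCycle)
    (hCf : ∀ e : G.edgeSet, f e = 1 ↔ (e : Sym2 V) ∈ C.edges) (y : ℤ) :
    ∑ S : Finset (Chords C), (-1 : ℤ) ^ (#S) *
      y ^ (Module.finrank (ZMod 2) (LinearMap.ker (interlace C S).mulVecLin)) = y - 1 := by
  classical
  obtain ⟨hne, -, hconst⟩ := main_facts G hG f hf u C hC hCf
  have hA : (ofE (crossSet C)).IsSymm := by
    ext a b
    simp only [ofE, Matrix.transpose_apply, or_comm]
  have h0 : ∀ i, ofE (crossSet C) i i = 0 := by
    intro i
    unfold ofE
    rw [if_neg]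
    rw [or_self]
    intro h
    exact crossSet_anti C i i h h
  rw [← value_all hA h0 hconst y]
  apply sum_congr rfl
  intro S _
  rw [interlace_eq]
  rfl

end Pool.Agent.Results.MP_3a6b6d_co.StatePolynomial
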